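import Pool.Agent.Helper59.PX.Cnt3

/-!
Project AT (MP_b8862a_ag), counting in rank two without duality: the number of the pairs `b` with `b q ∏ b i ≤ Y`, `b q` the larger
entry, is `O(Y ^ (2 / 3))`.
-/

set_option autoImplicit false

open Finset

namespace PX

namespace C2p

/-- the sum over `T` -/
theorem sum_T {z : ℝ} (hz : 1 ≤ z) (N : ℕ) :
    ∑ T ∈ Icc 1 N, (if (T : ℝ) ≤ z then z else z ^ 3 * (1 / (T : ℝ) ^ 2)) ≤ 3 * z ^ 2 := by
  have hz0 : 0 < z := by linarith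
  set m : ℕ := ⌊z⌋₊ with hm
  have hm1 : 1 ≤ m := Nat.le_floor (by simpa using hz)
  have hmz : (m : ℝ) ≤ z := Nat.floor_le hz0.le
  have hm2 : z ≤ 2 * m := by
    have h1 : z < m + 1 := Nat.lt_floor_add_one z
    have h2 : (1 : ℝ) ≤ m := by exact_mod_cast hm1
    linarith
  rw [← sum_filter_add_sum_filter_not (Icc 1 N) (fun x : ℕ => (x : ℝ) ≤ z)]
  have h1 : ∑ x ∈ (Icc 1 N).filter (fun x : ℕ => (x : ℝ) ≤ z), (if (x : ℝ) ≤ z then z else z ^ 3 * (1 / (x : ℝ) ^ 2)) ≤ z ^ 2 := by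
    calc ∑ x ∈ (Icc 1 N).filter (fun x : ℕ => (x : ℝ) ≤ z), (if (x : ℝ) ≤ z then z else z ^ 3 * (1 / (x : ℝ) ^ 2))
        = ∑ x ∈ (Icc 1 N).filter (fun x : ℕ => (x : ℝ) ≤ z), z := by
          refine sum_congr rfl fun x hx => ?_
          rw [if_pos (mem_filter.1 hx).2]
      _ ≤ ∑ x ∈ Icc 1 m, z := by
          refine sum_le_sum_of_subset_of_nonneg ?_ fun i _ _ => hz0.le
          intro x hx
          rw [mem_filter, mem_Icc] at hx
          rw [mem_Icc]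
          exact ⟨hx.1.1, Nat.le_floor hx.2⟩
      _ = m * z := by rw [sum_const, Nat.card_Icc, Nat.add_sub_cancel, nsmul_eq_mul]
      _ ≤ z * z := mul_le_mul_of_nonneg_right hmz hz0.le
      _ = z ^ 2 := by ring
  have h2 : ∑ x ∈ (Icc 1 N).filter (fun x : ℕ => ¬ (x : ℝ) ≤ z), (if (x : ℝ) ≤ z then z else z ^ 3 * (1 / (x : ℝ) ^ 2)) ≤
      2 * z ^ 2 := by
    calc ∑ x ∈ (Icc 1 N).filter (fun x : ℕ => ¬ (x : ℝ) ≤ z), (if (x : ℝ) ≤ z then z else z ^ 3 * (1 / (x : ℝ) ^ 2))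
        = ∑ x ∈ (Icc 1 N).filter (fun x : ℕ => ¬ (x : ℝ) ≤ z), z ^ 3 * (1 / (x : ℝ) ^ 2) := by
          refine sum_congr rfl fun x hx => ?_
          rw [if_neg (mem_filter.1 hx).2]
      _ ≤ ∑ x ∈ Icc (m + 1) N, z ^ 3 * (1 / (x : ℝ) ^ 2) := by
          refine sum_le_sum_of_subset_of_nonneg ?_ fun i _ _ => by positivity
          intro x hx
          rw [mem_filter, mem_Icc, not_le] at hx
          rw [mem_Icc]
          refine ⟨?_, hx.1.2⟩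
          have : (m : ℝ) < x := hmz.trans_lt hx.2
          exact_mod_cast this
      _ = z ^ 3 * ∑ x ∈ Icc (m + 1) N, 1 / (x : ℝ) ^ 2 := by rw [mul_sum]
      _ ≤ z ^ 3 * (1 / m) := mul_le_mul_of_nonneg_left (C3.sum_inv_sq m N hm1) (by positivity)
      _ ≤ z ^ 3 * (2 / z) := by
          refine mul_le_mul_of_nonneg_left ?_ (by positivity)
          have h3 : (0 : ℝ) < m := by exact_mod_cast hm1
          rw [div_le_div_iff₀ h3 hz0]
          linarith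
      _ = 2 * z ^ 2 := by
          field_simp
  linarith

/-- the ordered pairs `(T, y)` -/
noncomputable def D (z : ℝ) (N : ℕ) : Finset (ℕ × ℕ) :=
  (Icc 1 N ×ˢ Icc 1 N).filter fun t => t.2 ≤ t.1 ∧ (t.1 : ℝ) ^ 2 * t.2 ≤ z ^ 3

theorem card_D {z : ℝ} (hz : 1 ≤ z) (N : ℕ) : ((D z N).card : ℝ) ≤ 3 * z ^ 2 := by
  have hz0 : 0 ≤ z := by linarith
  refine le_trans ?_ (sum_T hz N)
  have h1 : ((D z N).card : ℝ) ≤ ∑ T ∈ Icc 1 N, (((Icc 1 N).filter fun y : ℕ => y ≤ T ∧ (T : ℝ) ^ 2 * y ≤ z ^ 3).card : ℝ) := by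
    have h2 : D z N ⊆ (Icc 1 N).biUnion fun T => ((Icc 1 N).filter fun y : ℕ => y ≤ T ∧ (T : ℝ) ^ 2 * y ≤ z ^ 3).image
        fun y => (T, y) := by
      rintro ⟨T, y⟩ ht
      rw [D, mem_filter, mem_product] at ht
      obtain ⟨⟨hT, hy⟩, h3, h4⟩ := ht
      rw [mem_biUnion]
      refine ⟨T, hT, ?_⟩
      rw [mem_image]
      exact ⟨y, mem_filter.2 ⟨hy, h3, h4⟩, rfl⟩
    have h3 : (D z N).card ≤ ∑ T ∈ Icc 1 N, ((Icc 1 N).filter fun y : ℕ => y ≤ T ∧ (T : ℝ) ^ 2 * y ≤ z ^ 3).card :=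
      (card_le_card h2).trans (card_biUnion_le.trans (sum_le_sum fun x _ => card_image_le))
    exact_mod_cast h3
  refine h1.trans (sum_le_sum fun T hT => ?_)
  have hT1 := (mem_Icc.1 hT).1
  have hT0 : (0 : ℝ) < T := by exact_mod_cast hT1
  split_ifs with h
  · have h2 : ((Icc 1 N).filter fun y : ℕ => y ≤ T ∧ (T : ℝ) ^ 2 * y ≤ z ^ 3) ⊆ Icc 1 T := by
      intro y hy
      rw [mem_filter, mem_Icc] at hy
      exact mem_Icc.2 ⟨hy.1.1, hy.2.1⟩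
    have h3 := card_le_card h2
    rw [Nat.card_Icc, Nat.add_sub_cancel] at h3
    have h4 : (((Icc 1 N).filter fun y : ℕ => y ≤ T ∧ (T : ℝ) ^ 2 * y ≤ z ^ 3).card : ℝ) ≤ T := by exact_mod_cast h3
    exact h4.trans h
  · have hW0 : 0 ≤ z ^ 3 * (1 / (T : ℝ) ^ 2) := by positivity
    have h2 : ((Icc 1 N).filter fun y : ℕ => y ≤ T ∧ (T : ℝ) ^ 2 * y ≤ z ^ 3) ⊆ Icc 1 ⌊z ^ 3 * (1 / (T : ℝ) ^ 2)⌋₊ := by
      intro y hy
      rw [mem_filter, mem_Icc] at hy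
      refine mem_Icc.2 ⟨hy.1.1, Nat.le_floor ?_⟩
      calc (y : ℝ) = (T : ℝ) ^ 2 * y * (1 / (T : ℝ) ^ 2) := by field_simp
        _ ≤ z ^ 3 * (1 / (T : ℝ) ^ 2) := mul_le_mul_of_nonneg_right hy.2.2 (by positivity)
    have h3 := card_le_card h2
    rw [Nat.card_Icc, Nat.add_sub_cancel] at h3
    have h4 : (((Icc 1 N).filter fun y : ℕ => y ≤ T ∧ (T : ℝ) ^ 2 * y ≤ z ^ 3).card : ℝ) ≤ (⌊z ^ 3 * (1 / (T : ℝ) ^ 2)⌋₊ : ℝ) := by
      exact_mod_cast h3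
    exact h4.trans (Nat.floor_le hW0)

end C2p

/-- **rank two without duality** -/
theorem cnt2' : ∃ C : ℝ, ∀ (Y : ℕ) (B : Finset (Fin 2 → ℕ)), (∀ b ∈ B, (∀ i, 1 ≤ b i) ∧
    ∃ q, (∀ i, b i ≤ b q) ∧ b q * ∏ i, b i ≤ Y) → (B.card : ℝ) ≤ C * (Y : ℝ) ^ (2 / 3 : ℝ) := by
  refine ⟨6, fun Y B hB => ?_⟩
  rcases Nat.eq_zero_or_pos Y with hY | hY
  · have : B = ∅ := by
      rw [eq_empty_iff_forall_notMem]
      intro b hb
      obtain ⟨h1, q, -, h2⟩ := hB b hb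
      have h3 : 0 < b q * ∏ i, b i := mul_pos (h1 q) (prod_pos fun i _ => h1 i)
      omega
    rw [this, card_empty, Nat.cast_zero]
    positivity
  have hY1 : (1 : ℝ) ≤ Y := by exact_mod_cast hY
  have hY0 : (0 : ℝ) ≤ Y := by linarith
  set z : ℝ := (Y : ℝ) ^ (1 / 3 : ℝ) with hz
  have hz1 : 1 ≤ z := Real.one_le_rpow hY1 (by norm_num)
  have hz3 : z ^ 3 = Y := by
    rw [hz, ← Real.rpow_natCast, ← Real.rpow_mul hY0]
    norm_num
  have hz2 : z ^ 2 = (Y : ℝ) ^ (2 / 3 : ℝ) := by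
    rw [hz, ← Real.rpow_natCast, ← Real.rpow_mul hY0]
    norm_num
  rw [← hz2]
  classical
  have hsort : ∀ b ∈ B, ∃ s : Equiv.Perm (Fin 2), (b (s 0), b (s 1)) ∈ C2p.D z Y := by
    intro b hb
    obtain ⟨h1, q, hq, h2⟩ := hB b hb
    obtain ⟨s, hs0⟩ : ∃ s : Equiv.Perm (Fin 2), s 0 = q := ⟨Equiv.swap 0 q, Equiv.swap_apply_left 0 q⟩
    refine ⟨s, ?_⟩
    have hprod : ∏ i, b i = b (s 0) * b (s 1) := by
      rw [← Equiv.prod_comp s, Fin.prod_univ_two]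
    rw [hprod, ← hs0] at h2
    have hle : ∀ i, b i ≤ Y := by
      intro i
      have h3 : b i ≤ b q := hq i
      have h5 : b (s 0) ≤ b (s 0) * (b (s 0) * b (s 1)) := Nat.le_mul_of_pos_right _ (mul_pos (h1 _) (h1 _))
      rw [hs0] at h5
      rw [hs0] at h2
      exact h3.trans (h5.trans h2)
    rw [C2p.D, mem_filter, mem_product]
    refine ⟨⟨mem_Icc.2 ⟨h1 _, hle _⟩, mem_Icc.2 ⟨h1 _, hle _⟩⟩, ?_, ?_⟩
    · show b (s 1) ≤ b (s 0)
      rw [hs0]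
      exact hq _
    · show (b (s 0) : ℝ) ^ 2 * b (s 1) ≤ z ^ 3
      rw [hz3]
      calc (b (s 0) : ℝ) ^ 2 * b (s 1) = ((b (s 0) * (b (s 0) * b (s 1)) : ℕ) : ℝ) := by push_cast; ring
        _ ≤ Y := by exact_mod_cast h2
  have hsub : B ⊆ (univ : Finset (Equiv.Perm (Fin 2))).biUnion fun s =>
      B.filter fun b => (b (s 0), b (s 1)) ∈ C2p.D z Y := by
    intro b hb
    obtain ⟨s, hs⟩ := hsort b hb
    exact mem_biUnion.2 ⟨s, mem_univ _, mem_filter.2 ⟨hb, hs⟩⟩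
  have hc : ∀ s : Equiv.Perm (Fin 2), (B.filter fun b => (b (s 0), b (s 1)) ∈ C2p.D z Y).card ≤ (C2p.D z Y).card := by
    intro s
    refine card_le_card_of_injOn (fun b => (b (s 0), b (s 1))) (fun b hb => (mem_filter.1 hb).2) ?_
    intro b _ b' _ h
    simp only [Prod.mk.injEq] at h
    funext i
    obtain ⟨j, rfl⟩ := s.surjective i
    fin_cases j
    · exact h.1
    · exact h.2
  have h4 : B.card ≤ 2 * (C2p.D z Y).card := by
    calc B.card ≤ ∑ s : Equiv.Perm (Fin 2), (B.filter fun b => (b (s 0), b (s 1)) ∈ C2p.D z Y).card :=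
          (card_le_card hsub).trans card_biUnion_le
      _ ≤ ∑ s : Equiv.Perm (Fin 2), (C2p.D z Y).card := sum_le_sum fun s _ => hc s
      _ = 2 * (C2p.D z Y).card := by
          rw [sum_const, smul_eq_mul, card_univ, Fintype.card_perm, Fintype.card_fin]
          rfl
  have h5 : (B.card : ℝ) ≤ 2 * (C2p.D z Y).card := by exact_mod_cast h4
  have h6 := C2p.card_D hz1 Y
  linarith

end PX
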