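import Mathlib

/-!
Project PX (MP_b8862a_ag), block PX-11, rank three: the number of the triples `b` with `(b q ∏ b i) ^ 3 ≤ Y ^ 2`, `b q` the largest
entry, is `O(√Y)`.
-/

set_option autoImplicit false

open Finset

namespace PX

namespace C3

theorem sum_inv_sqrt (n : ℕ) : ∑ y ∈ Icc 1 n, 1 / Real.sqrt y ≤ 2 * Real.sqrt n := by
  induction n with
  | zero => simp
  | succ n ih =>
    rw [sum_Icc_succ_top (by omega)]
    have h0 : (0 : ℝ) ≤ n := Nat.cast_nonneg n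
    have h1 : 0 < Real.sqrt ((n + 1 : ℕ) : ℝ) := Real.sqrt_pos.2 (by positivity)
    have h2 : Real.sqrt n ≤ Real.sqrt ((n + 1 : ℕ) : ℝ) := Real.sqrt_le_sqrt (by push_cast; linarith)
    have h3 : Real.sqrt ((n + 1 : ℕ) : ℝ) ^ 2 = n + 1 := by
      rw [Real.sq_sqrt (by positivity)]
      push_cast
      ring
    have h4 : Real.sqrt (n : ℝ) ^ 2 = n := Real.sq_sqrt h0
    have h5 : 1 / Real.sqrt ((n + 1 : ℕ) : ℝ) ≤ 2 * (Real.sqrt ((n + 1 : ℕ) : ℝ) - Real.sqrt n) := by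
      rw [div_le_iff₀ h1]
      nlinarith
    linarith

theorem sum_inv_sq (m N : ℕ) (hm : 1 ≤ m) : ∑ x ∈ Icc (m + 1) N, 1 / (x : ℝ) ^ 2 ≤ 1 / (m : ℝ) := by
  have hm0 : (0 : ℝ) < m := by exact_mod_cast hm
  have key : ∀ k : ℕ, ∑ x ∈ Icc (m + 1) (m + k), 1 / (x : ℝ) ^ 2 ≤ 1 / m - 1 / ((m : ℝ) + k) := by
    intro k
    induction k with
    | zero => simp
    | succ k ih =>
      rw [← add_assoc, sum_Icc_succ_top (by omega)]
      have hk : (0 : ℝ) ≤ k := Nat.cast_nonneg k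
      have h1 : 1 / ((m : ℝ) + k + 1) ^ 2 ≤ 1 / ((m : ℝ) + k) - 1 / ((m : ℝ) + k + 1) := by
        rw [div_sub_div _ _ (by positivity) (by positivity), div_le_div_iff₀ (by positivity) (by positivity)]
        nlinarith
      push_cast
      have e : (m : ℝ) + (k + 1) = m + k + 1 := by ring
      rw [e]
      linarith
  rcases le_total N m with h | h
  · rw [Icc_eq_empty (by omega), sum_empty]
    positivity
  · obtain ⟨k, rfl⟩ := Nat.exists_eq_add_of_le h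
    refine (key k).trans ?_
    have : 0 ≤ 1 / ((m : ℝ) + k) := by positivity
    linarith

/-- the number of the `T` -/
theorem card_T {z : ℝ} {x y N : ℕ} (hx : 1 ≤ x) (hy : 1 ≤ y) :
    (((Icc 1 N).filter fun T : ℕ => (T : ℝ) ^ 2 * x * y ≤ z ^ 4).card : ℝ) ≤ z ^ 2 * (1 / Real.sqrt x * (1 / Real.sqrt y)) := by
  have hx0 : (0 : ℝ) < x := by exact_mod_cast hx
  have hy0 : (0 : ℝ) < y := by exact_mod_cast hy
  have sx : 0 < Real.sqrt x := Real.sqrt_pos.2 hx0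
  have sy : 0 < Real.sqrt y := Real.sqrt_pos.2 hy0
  have qx : Real.sqrt x ^ 2 = x := Real.sq_sqrt hx0.le
  have qy : Real.sqrt y ^ 2 = y := Real.sq_sqrt hy0.le
  set W : ℝ := z ^ 2 * (1 / Real.sqrt x * (1 / Real.sqrt y)) with hW
  have hW0 : 0 ≤ W := by positivity
  have hsub : ((Icc 1 N).filter fun T : ℕ => (T : ℝ) ^ 2 * x * y ≤ z ^ 4) ⊆ Icc 1 ⌊W⌋₊ := by
    intro T hT
    rw [mem_filter, mem_Icc] at hT
    rw [mem_Icc]
    refine ⟨hT.1.1, Nat.le_floor ?_⟩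
    have h1 : ((T : ℝ) * Real.sqrt x * Real.sqrt y) ^ 2 ≤ (z ^ 2) ^ 2 := by
      calc ((T : ℝ) * Real.sqrt x * Real.sqrt y) ^ 2 = (T : ℝ) ^ 2 * Real.sqrt x ^ 2 * Real.sqrt y ^ 2 := by ring
        _ = (T : ℝ) ^ 2 * x * y := by rw [qx, qy]
        _ ≤ z ^ 4 := hT.2
        _ = (z ^ 2) ^ 2 := by ring
    have h2 : (T : ℝ) * Real.sqrt x * Real.sqrt y ≤ z ^ 2 := by
      refine le_of_sq_le_sq h1 (by positivity)
    calc (T : ℝ) = (T : ℝ) * Real.sqrt x * Real.sqrt y * (1 / Real.sqrt x * (1 / Real.sqrt y)) := by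
          field_simp
      _ ≤ W := mul_le_mul_of_nonneg_right h2 (by positivity)
  calc (((Icc 1 N).filter fun T : ℕ => (T : ℝ) ^ 2 * x * y ≤ z ^ 4).card : ℝ) ≤ ((Icc 1 ⌊W⌋₊).card : ℝ) := by
        exact_mod_cast card_le_card hsub
    _ = (⌊W⌋₊ : ℝ) := by rw [Nat.card_Icc, Nat.add_sub_cancel]
    _ ≤ W := Nat.floor_le hW0

/-- the sum over `y` -/
theorem sum_y {z : ℝ} (hz : 1 ≤ z) {x N : ℕ} (hx : 1 ≤ x) :
    ∑ y ∈ (Icc 1 N).filter (fun y => y ≤ x ∧ (x : ℝ) ^ 3 * y ≤ z ^ 4), z ^ 2 * (1 / Real.sqrt x * (1 / Real.sqrt y)) ≤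
      if (x : ℝ) ≤ z then 2 * z ^ 2 else 2 * z ^ 4 * (1 / (x : ℝ) ^ 2) := by
  have hx0 : (0 : ℝ) < x := by exact_mod_cast hx
  have sx : 0 < Real.sqrt x := Real.sqrt_pos.2 hx0
  have qx : Real.sqrt x ^ 2 = x := Real.sq_sqrt hx0.le
  rw [← mul_sum, ← mul_sum]
  split_ifs with h
  · have h1 : ∑ y ∈ (Icc 1 N).filter (fun y => y ≤ x ∧ (x : ℝ) ^ 3 * y ≤ z ^ 4), 1 / Real.sqrt y ≤ 2 * Real.sqrt x := by
      refine le_trans ?_ (sum_inv_sqrt x)
      refine sum_le_sum_of_subset_of_nonneg ?_ fun i _ _ => by positivity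
      intro y hy
      rw [mem_filter, mem_Icc] at hy
      rw [mem_Icc]
      exact ⟨hy.1.1, hy.2.1⟩
    calc z ^ 2 * (1 / Real.sqrt x * ∑ y ∈ (Icc 1 N).filter (fun y => y ≤ x ∧ (x : ℝ) ^ 3 * y ≤ z ^ 4), 1 / Real.sqrt y)
        ≤ z ^ 2 * (1 / Real.sqrt x * (2 * Real.sqrt x)) := by gcongr
      _ = 2 * z ^ 2 := by field_simp
  · rw [not_le] at h
    set W : ℝ := z ^ 4 * (1 / (x : ℝ) ^ 3) with hW
    have hW0 : 0 ≤ W := by positivity
    have h1 : ∑ y ∈ (Icc 1 N).filter (fun y => y ≤ x ∧ (x : ℝ) ^ 3 * y ≤ z ^ 4), 1 / Real.sqrt y ≤ 2 * Real.sqrt W := by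
      refine le_trans ?_ (le_trans (sum_inv_sqrt ⌊W⌋₊) ?_)
      · refine sum_le_sum_of_subset_of_nonneg ?_ fun i _ _ => by positivity
        intro y hy
        rw [mem_filter, mem_Icc] at hy
        rw [mem_Icc]
        refine ⟨hy.1.1, Nat.le_floor ?_⟩
        calc (y : ℝ) = (x : ℝ) ^ 3 * y * (1 / (x : ℝ) ^ 3) := by field_simp
          _ ≤ z ^ 4 * (1 / (x : ℝ) ^ 3) := mul_le_mul_of_nonneg_right hy.2.2 (by positivity)
      · have := Real.sqrt_le_sqrt (Nat.floor_le hW0)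
        linarith
    have h2 : Real.sqrt W = z ^ 2 * (1 / (x * Real.sqrt x)) := by
      rw [Real.sqrt_eq_iff_mul_self_eq hW0 (by positivity), hW]
      have : z ^ 2 * (1 / (x * Real.sqrt x)) * (z ^ 2 * (1 / (x * Real.sqrt x))) = z ^ 4 * (1 / ((x : ℝ) ^ 2 * Real.sqrt x ^ 2)) := by
        field_simp
      rw [this, qx]
      ring
    calc z ^ 2 * (1 / Real.sqrt x * ∑ y ∈ (Icc 1 N).filter (fun y => y ≤ x ∧ (x : ℝ) ^ 3 * y ≤ z ^ 4), 1 / Real.sqrt y)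
        ≤ z ^ 2 * (1 / Real.sqrt x * (2 * Real.sqrt W)) := by gcongr
      _ = 2 * z ^ 4 * (1 / (x * Real.sqrt x ^ 2)) := by
          rw [h2]
          field_simp
      _ = 2 * z ^ 4 * (1 / (x : ℝ) ^ 2) := by
          rw [qx]
          ring

/-- the sum over `x` -/
theorem sum_x {z : ℝ} (hz : 1 ≤ z) (N : ℕ) :
    ∑ x ∈ Icc 1 N, (if (x : ℝ) ≤ z then 2 * z ^ 2 else 2 * z ^ 4 * (1 / (x : ℝ) ^ 2)) ≤ 6 * z ^ 3 := by
  have hz0 : 0 < z := by linarith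
  set m : ℕ := ⌊z⌋₊ with hm
  have hm1 : 1 ≤ m := Nat.le_floor (by simpa using hz)
  have hmz : (m : ℝ) ≤ z := Nat.floor_le hz0.le
  have hm2 : z ≤ 2 * m := by
    have h1 : z < m + 1 := Nat.lt_floor_add_one z
    have h2 : (1 : ℝ) ≤ m := by exact_mod_cast hm1
    linarith
  rw [← sum_filter_add_sum_filter_not (Icc 1 N) (fun x : ℕ => (x : ℝ) ≤ z)]
  have h1 : ∑ x ∈ (Icc 1 N).filter (fun x : ℕ => (x : ℝ) ≤ z), (if (x : ℝ) ≤ z then 2 * z ^ 2 else 2 * z ^ 4 * (1 / (x : ℝ) ^ 2)) ≤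
      2 * z ^ 3 := by
    calc ∑ x ∈ (Icc 1 N).filter (fun x : ℕ => (x : ℝ) ≤ z), (if (x : ℝ) ≤ z then 2 * z ^ 2 else 2 * z ^ 4 * (1 / (x : ℝ) ^ 2))
        = ∑ x ∈ (Icc 1 N).filter (fun x : ℕ => (x : ℝ) ≤ z), 2 * z ^ 2 := by
          refine sum_congr rfl fun x hx => ?_
          rw [if_pos (mem_filter.1 hx).2]
      _ ≤ ∑ x ∈ Icc 1 m, 2 * z ^ 2 := by
          refine sum_le_sum_of_subset_of_nonneg ?_ fun i _ _ => by positivity
          intro x hx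
          rw [mem_filter, mem_Icc] at hx
          rw [mem_Icc]
          exact ⟨hx.1.1, Nat.le_floor hx.2⟩
      _ = m * (2 * z ^ 2) := by rw [sum_const, Nat.card_Icc, Nat.add_sub_cancel, nsmul_eq_mul]
      _ ≤ z * (2 * z ^ 2) := mul_le_mul_of_nonneg_right hmz (by positivity)
      _ = 2 * z ^ 3 := by ring
  have h2 : ∑ x ∈ (Icc 1 N).filter (fun x : ℕ => ¬ (x : ℝ) ≤ z), (if (x : ℝ) ≤ z then 2 * z ^ 2 else 2 * z ^ 4 * (1 / (x : ℝ) ^ 2)) ≤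
      4 * z ^ 3 := by
    calc ∑ x ∈ (Icc 1 N).filter (fun x : ℕ => ¬ (x : ℝ) ≤ z), (if (x : ℝ) ≤ z then 2 * z ^ 2 else 2 * z ^ 4 * (1 / (x : ℝ) ^ 2))
        = ∑ x ∈ (Icc 1 N).filter (fun x : ℕ => ¬ (x : ℝ) ≤ z), 2 * z ^ 4 * (1 / (x : ℝ) ^ 2) := by
          refine sum_congr rfl fun x hx => ?_
          rw [if_neg (mem_filter.1 hx).2]
      _ ≤ ∑ x ∈ Icc (m + 1) N, 2 * z ^ 4 * (1 / (x : ℝ) ^ 2) := by
          refine sum_le_sum_of_subset_of_nonneg ?_ fun i _ _ => by positivity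
          intro x hx
          rw [mem_filter, mem_Icc, not_le] at hx
          rw [mem_Icc]
          refine ⟨?_, hx.1.2⟩
          have : (m : ℝ) < x := hmz.trans_lt hx.2
          exact_mod_cast this
      _ = 2 * z ^ 4 * ∑ x ∈ Icc (m + 1) N, 1 / (x : ℝ) ^ 2 := by rw [mul_sum]
      _ ≤ 2 * z ^ 4 * (1 / m) := mul_le_mul_of_nonneg_left (sum_inv_sq m N hm1) (by positivity)
      _ ≤ 2 * z ^ 4 * (2 / z) := by
          refine mul_le_mul_of_nonneg_left ?_ (by positivity)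
          have h3 : (0 : ℝ) < m := by exact_mod_cast hm1
          rw [div_le_div_iff₀ h3 hz0]
          linarith
      _ = 4 * z ^ 3 := by
          field_simp
          ring
  linarith

/-- the ordered triples `(x, y, T)` -/
noncomputable def D (z : ℝ) (N : ℕ) : Finset (ℕ × ℕ × ℕ) :=
  (Icc 1 N ×ˢ Icc 1 N ×ˢ Icc 1 N).filter fun t => t.2.1 ≤ t.1 ∧ t.1 ≤ t.2.2 ∧ (t.2.2 : ℝ) ^ 2 * t.1 * t.2.1 ≤ z ^ 4

theorem card_D {z : ℝ} (hz : 1 ≤ z) (N : ℕ) : ((D z N).card : ℝ) ≤ 6 * z ^ 3 := by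
  refine le_trans ?_ (sum_x hz N)
  have h1 : ((D z N).card : ℝ) ≤ ∑ x ∈ Icc 1 N, ∑ y ∈ (Icc 1 N).filter (fun y => y ≤ x ∧ (x : ℝ) ^ 3 * y ≤ z ^ 4),
      (((Icc 1 N).filter fun T : ℕ => (T : ℝ) ^ 2 * x * y ≤ z ^ 4).card : ℝ) := by
    have h2 : D z N ⊆ (Icc 1 N).biUnion fun x => ((Icc 1 N).filter (fun y => y ≤ x ∧ (x : ℝ) ^ 3 * y ≤ z ^ 4)).biUnion fun y =>
        ((Icc 1 N).filter fun T : ℕ => (T : ℝ) ^ 2 * x * y ≤ z ^ 4).image fun T => (x, y, T) := by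
      rintro ⟨x, y, T⟩ ht
      rw [D, mem_filter, mem_product, mem_product] at ht
      obtain ⟨⟨hx, hy, hT⟩, h3, h4, h5⟩ := ht
      simp only at hx hy hT h3 h4 h5
      rw [mem_biUnion]
      refine ⟨x, hx, ?_⟩
      rw [mem_biUnion]
      refine ⟨y, ?_, ?_⟩
      · rw [mem_filter]
        refine ⟨hy, h3, ?_⟩
        have h6 : (x : ℝ) ≤ T := by exact_mod_cast h4
        calc (x : ℝ) ^ 3 * y = (x : ℝ) ^ 2 * x * y := by ring
          _ ≤ (T : ℝ) ^ 2 * x * y := by gcongr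
          _ ≤ z ^ 4 := h5
      · rw [mem_image]
        exact ⟨T, mem_filter.2 ⟨hT, h5⟩, rfl⟩
    have h3 : (D z N).card ≤ ∑ x ∈ Icc 1 N, ∑ y ∈ (Icc 1 N).filter (fun y => y ≤ x ∧ (x : ℝ) ^ 3 * y ≤ z ^ 4),
        ((Icc 1 N).filter fun T : ℕ => (T : ℝ) ^ 2 * x * y ≤ z ^ 4).card := by
      refine (card_le_card h2).trans (card_biUnion_le.trans (sum_le_sum fun x _ => ?_))
      exact card_biUnion_le.trans (sum_le_sum fun y _ => card_image_le)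
    exact_mod_cast h3
  refine h1.trans (sum_le_sum fun x hx => ?_)
  have hx1 := (mem_Icc.1 hx).1
  refine le_trans (sum_le_sum fun y hy => ?_) (sum_y hz (N := N) hx1)
  exact card_T hx1 (mem_Icc.1 (mem_filter.1 hy).1).1

end C3

/-- **PX-11, rank three** -/
theorem cnt3 : ∃ C : ℝ, ∀ (Y : ℕ) (B : Finset (Fin 3 → ℕ)), (∀ b ∈ B, (∀ i, 1 ≤ b i) ∧
    ∃ q, (∀ i, b i ≤ b q) ∧ (b q * ∏ i, b i) ^ 3 ≤ Y ^ 2) → (B.card : ℝ) ≤ C * (Y : ℝ) ^ (1 / 2 : ℝ) := by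
  refine ⟨36, fun Y B hB => ?_⟩
  rcases Nat.eq_zero_or_pos Y with hY | hY
  · have : B = ∅ := by
      rw [eq_empty_iff_forall_notMem]
      intro b hb
      obtain ⟨h1, q, -, h2⟩ := hB b hb
      have h3 : 0 < (b q * ∏ i, b i) ^ 3 := pow_pos (mul_pos (h1 q) (prod_pos fun i _ => h1 i)) 3
      rw [hY] at h2
      omega
    rw [this, card_empty, Nat.cast_zero]
    positivity
  have hY1 : (1 : ℝ) ≤ Y := by exact_mod_cast hY
  have hY0 : (0 : ℝ) ≤ Y := by linarith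
  set z : ℝ := (Y : ℝ) ^ (1 / 6 : ℝ) with hz
  have hz1 : 1 ≤ z := Real.one_le_rpow hY1 (by norm_num)
  have hz6 : z ^ 6 = Y := by
    rw [hz, ← Real.rpow_natCast, ← Real.rpow_mul hY0]
    norm_num
  have hz3 : z ^ 3 = (Y : ℝ) ^ (1 / 2 : ℝ) := by
    rw [hz, ← Real.rpow_natCast, ← Real.rpow_mul hY0]
    norm_num
  rw [← hz3]
  classical
  set N : ℕ := Y ^ 2 with hN
  -- the sorted triples
  have hsort : ∀ b ∈ B, ∃ s : Equiv.Perm (Fin 3), (b (s 1), b (s 2), b (s 0)) ∈ C3.D z N := by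
    intro b hb
    obtain ⟨h1, q, hq, h2⟩ := hB b hb
    obtain ⟨s, hs1, hs0⟩ : ∃ s : Equiv.Perm (Fin 3), b (s 2) ≤ b (s 1) ∧ s 0 = q := by
      have : ∃ s : Equiv.Perm (Fin 3), s 0 = q := ⟨Equiv.swap 0 q, Equiv.swap_apply_left 0 q⟩
      obtain ⟨s, hs⟩ := this
      rcases le_total (b (s 2)) (b (s 1)) with h | h
      · exact ⟨s, h, hs⟩
      · refine ⟨(Equiv.swap 1 2).trans s, ?_, ?_⟩
        · simpa using h
        · rw [Equiv.trans_apply, Equiv.swap_apply_of_ne_of_ne (by decide) (by decide), hs]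
    refine ⟨s, ?_⟩
    have hprod : ∏ i, b i = b (s 0) * b (s 1) * b (s 2) := by
      rw [← Equiv.prod_comp s, Fin.prod_univ_three]
    rw [hprod, ← hs0] at h2
    have hle : ∀ i, b i ≤ N := by
      intro i
      have h3 : b i ≤ b q := hq i
      have h4 : b q ≤ (b (s 0) * (b (s 0) * b (s 1) * b (s 2))) ^ 3 := by
        rw [← hs0]
        have h5 : b (s 0) ≤ b (s 0) * (b (s 0) * b (s 1) * b (s 2)) :=
          Nat.le_mul_of_pos_right _ (mul_pos (mul_pos (h1 _) (h1 _)) (h1 _))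
        exact h5.trans (Nat.le_self_pow (by norm_num) _)
      exact h3.trans (h4.trans h2)
    have h3 : (b (s 0) : ℝ) ^ 2 * b (s 1) * b (s 2) ≤ z ^ 4 := by
      have h4 : ((b (s 0) : ℝ) ^ 2 * b (s 1) * b (s 2)) ^ 3 ≤ (z ^ 4) ^ 3 := by
        calc ((b (s 0) : ℝ) ^ 2 * b (s 1) * b (s 2)) ^ 3
            = (((b (s 0) * (b (s 0) * b (s 1) * b (s 2))) ^ 3 : ℕ) : ℝ) := by push_cast; ring
          _ ≤ ((Y ^ 2 : ℕ) : ℝ) := by exact_mod_cast h2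
          _ = (z ^ 4) ^ 3 := by
              push_cast
              rw [← hz6]
              ring
      exact le_of_pow_le_pow_left₀ (by norm_num) (by positivity) h4
    rw [C3.D, mem_filter, mem_product, mem_product]
    refine ⟨⟨mem_Icc.2 ⟨h1 _, hle _⟩, mem_Icc.2 ⟨h1 _, hle _⟩, mem_Icc.2 ⟨h1 _, hle _⟩⟩, hs1, ?_, h3⟩
    show b (s 1) ≤ b (s 0)
    rw [hs0]
    exact hq _
  have hsub : B ⊆ (univ : Finset (Equiv.Perm (Fin 3))).biUnion fun s =>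
      B.filter fun b => (b (s 1), b (s 2), b (s 0)) ∈ C3.D z N := by
    intro b hb
    obtain ⟨s, hs⟩ := hsort b hb
    exact mem_biUnion.2 ⟨s, mem_univ _, mem_filter.2 ⟨hb, hs⟩⟩
  have hc : ∀ s : Equiv.Perm (Fin 3), (B.filter fun b => (b (s 1), b (s 2), b (s 0)) ∈ C3.D z N).card ≤ (C3.D z N).card := by
    intro s
    refine card_le_card_of_injOn (fun b => (b (s 1), b (s 2), b (s 0))) (fun b hb => (mem_filter.1 hb).2) ?_
    intro b _ b' _ h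
    simp only [Prod.mk.injEq] at h
    funext i
    obtain ⟨j, rfl⟩ := s.surjective i
    fin_cases j
    · exact h.2.2
    · exact h.1
    · exact h.2.1
  have h4 : B.card ≤ 6 * (C3.D z N).card := by
    calc B.card ≤ ∑ s : Equiv.Perm (Fin 3), (B.filter fun b => (b (s 1), b (s 2), b (s 0)) ∈ C3.D z N).card :=
          (card_le_card hsub).trans card_biUnion_le
      _ ≤ ∑ s : Equiv.Perm (Fin 3), (C3.D z N).card := sum_le_sum fun s _ => hc s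
      _ = 6 * (C3.D z N).card := by
          rw [sum_const, smul_eq_mul, card_univ, Fintype.card_perm, Fintype.card_fin]
          rfl
  have h5 : (B.card : ℝ) ≤ 6 * (C3.D z N).card := by exact_mod_cast h4
  have h6 := C3.card_D hz1 N
  linarith

end PX
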