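import Pool.Agent.Helper81.PX.Defs

/-!
Project PX (MP_b8862a_ag), block PX-7: the number of the codes `b` with `∏ b i ^ gg m i ≤ Y` is at most `C Y`.
-/

set_option autoImplicit false

open Finset

namespace PX

private theorem sum_four (q : ℕ) : ∑ i ∈ range (4 * q), (1 / 2 : ℝ) ^ (i / 4) = 8 - 8 * (1 / 2 : ℝ) ^ q := by
  induction q with
  | zero => simp
  | succ q ih =>
    have e0 : 4 * q / 4 = q := by omega
    have e1 : (4 * q + 1) / 4 = q := by omega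
    have e2 : (4 * q + 2) / 4 = q := by omega
    have e3 : (4 * q + 3) / 4 = q := by omega
    have e : 4 * (q + 1) = 4 * q + 1 + 1 + 1 + 1 := by omega
    rw [e, sum_range_succ, sum_range_succ, sum_range_succ, sum_range_succ, ih, e0, e1]
    rw [show (4 * q + 1 + 1) / 4 = q by omega, show (4 * q + 1 + 1 + 1) / 4 = q by omega, pow_succ]
    ring

private theorem sum_le_eight (m : ℕ) : ∑ i ∈ range m, (1 / 2 : ℝ) ^ (i / 4) ≤ 8 := by
  have h1 : ∑ i ∈ range m, (1 / 2 : ℝ) ^ (i / 4) ≤ ∑ i ∈ range (4 * m), (1 / 2 : ℝ) ^ (i / 4) :=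
    sum_le_sum_of_subset_of_nonneg (range_mono (by omega)) fun i _ _ => by positivity
  rw [sum_four] at h1
  have h2 : (0 : ℝ) ≤ 8 * (1 / 2 : ℝ) ^ m := by positivity
  linarith

private theorem sum_gg (m : ℕ) : ∑ i : Fin m, (1 / 2 : ℝ) ^ gg m i ≤ 16 := by
  have h1 : ∀ i : ℕ, (1 / 2 : ℝ) ^ gg m i ≤ (1 / 2 : ℝ) ^ (i / 4) + (1 / 2 : ℝ) ^ ((m - 1 - i) / 4) := by
    intro i
    have h0 : (0 : ℝ) ≤ (1 / 2 : ℝ) ^ (i / 4) := by positivity
    have h0' : (0 : ℝ) ≤ (1 / 2 : ℝ) ^ ((m - 1 - i) / 4) := by positivity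
    rcases le_total (i + 1) (m - 1 - i) with h | h
    · have h2 : i / 4 ≤ gg m i := by
        unfold gg
        rw [min_eq_left h]
        omega
      have h3 := pow_le_pow_of_le_one (by norm_num : (0 : ℝ) ≤ 1 / 2) (by norm_num) h2
      linarith
    · have h2 : (m - 1 - i) / 4 ≤ gg m i := by
        unfold gg
        rw [min_eq_right h]
        omega
      have h3 := pow_le_pow_of_le_one (by norm_num : (0 : ℝ) ≤ 1 / 2) (by norm_num) h2
      linarith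
  calc ∑ i : Fin m, (1 / 2 : ℝ) ^ gg m i
      ≤ ∑ i : Fin m, ((1 / 2 : ℝ) ^ ((i : ℕ) / 4) + (1 / 2 : ℝ) ^ ((m - 1 - (i : ℕ)) / 4)) :=
        sum_le_sum fun i _ => h1 i
    _ = ∑ i ∈ range m, (1 / 2 : ℝ) ^ (i / 4) + ∑ i ∈ range m, (1 / 2 : ℝ) ^ ((m - 1 - i) / 4) := by
        rw [Fin.sum_univ_eq_sum_range (fun i => (1 / 2 : ℝ) ^ (i / 4) + (1 / 2 : ℝ) ^ ((m - 1 - i) / 4)),
          sum_add_distrib]
    _ = ∑ i ∈ range m, (1 / 2 : ℝ) ^ (i / 4) + ∑ i ∈ range m, (1 / 2 : ℝ) ^ (i / 4) := by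
        rw [sum_range_reflect (fun i => (1 / 2 : ℝ) ^ (i / 4))]
    _ ≤ 16 := by
        have := sum_le_eight m
        linarith

private theorem sum_sq (Y : ℕ) : ∑ k ∈ Icc 2 (Y + 1), 1 / (k : ℝ) ^ 2 ≤ 1 - 1 / ((Y : ℝ) + 1) := by
  induction Y with
  | zero => simp
  | succ Y ih =>
    have e : Icc 2 (Y + 1 + 1) = insert (Y + 2) (Icc 2 (Y + 1)) := by
      ext k
      simp only [mem_Icc, mem_insert]
      omega
    rw [e, sum_insert (by simp)]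
    have hY : (0 : ℝ) ≤ Y := Nat.cast_nonneg Y
    have h1 : 1 / ((Y : ℝ) + 2) ^ 2 ≤ 1 / ((Y : ℝ) + 1) - 1 / ((Y : ℝ) + 2) := by
      rw [div_sub_div _ _ (by positivity) (by positivity), div_le_div_iff₀ (by positivity) (by positivity)]
      nlinarith
    push_cast
    have e2 : (Y : ℝ) + 1 + 1 = Y + 2 := by ring
    rw [e2]
    linarith

private theorem sum_pow (Y g : ℕ) (hg : 2 ≤ g) :
    ∑ k ∈ Icc 1 Y, 1 / (k : ℝ) ^ g ≤ 1 + 4 * (1 / 2 : ℝ) ^ g := by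
  rcases Nat.eq_zero_or_pos Y with h | h
  · subst h
    simp only [zero_lt_one, Icc_eq_empty_of_lt, sum_empty]
    positivity
  · obtain ⟨Z, rfl⟩ : ∃ Z, Y = Z + 1 := ⟨Y - 1, by omega⟩
    have e : Icc 1 (Z + 1) = insert 1 (Icc 2 (Z + 1)) := by
      ext k
      simp only [mem_Icc, mem_insert]
      omega
    rw [e, sum_insert (by simp)]
    have h1 : ∀ k ∈ Icc 2 (Z + 1), 1 / (k : ℝ) ^ g ≤ 4 * (1 / 2 : ℝ) ^ g * (1 / (k : ℝ) ^ 2) := by
      intro k hk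
      have hk2 : 2 ≤ k := (mem_Icc.1 hk).1
      have hk0 : (0 : ℝ) < k := by exact_mod_cast (by omega : 0 < k)
      obtain ⟨j, rfl⟩ : ∃ j, g = 2 + j := ⟨g - 2, by omega⟩
      have h2 : (1 / (k : ℝ)) ^ j ≤ (1 / 2 : ℝ) ^ j := by
        refine pow_le_pow_left₀ (by positivity) ?_ j
        exact one_div_le_one_div_of_le (by norm_num) (by exact_mod_cast hk2)
      calc 1 / (k : ℝ) ^ (2 + j) = (1 / (k : ℝ)) ^ j * (1 / (k : ℝ) ^ 2) := by
            rw [pow_add, one_div_pow]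
            field_simp
        _ ≤ (1 / 2 : ℝ) ^ j * (1 / (k : ℝ) ^ 2) := mul_le_mul_of_nonneg_right h2 (by positivity)
        _ = 4 * (1 / 2 : ℝ) ^ (2 + j) * (1 / (k : ℝ) ^ 2) := by
            rw [pow_add]
            ring
    have h3 : ∑ k ∈ Icc 2 (Z + 1), 1 / (k : ℝ) ^ g ≤ 4 * (1 / 2 : ℝ) ^ g * ∑ k ∈ Icc 2 (Z + 1), 1 / (k : ℝ) ^ 2 := by
      rw [mul_sum]
      exact sum_le_sum h1
    have h4 : ∑ k ∈ Icc 2 (Z + 1), 1 / (k : ℝ) ^ 2 ≤ 1 := by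
      have h5 := sum_sq Z
      have h6 : (0 : ℝ) ≤ 1 / ((Z : ℝ) + 1) := by positivity
      linarith
    have h5 : 4 * (1 / 2 : ℝ) ^ g * ∑ k ∈ Icc 2 (Z + 1), 1 / (k : ℝ) ^ 2 ≤ 4 * (1 / 2 : ℝ) ^ g * 1 :=
      mul_le_mul_of_nonneg_left h4 (by positivity)
    simp only [Nat.cast_one, one_pow, div_one]
    linarith

/-- **PX-7** -/
theorem count : ∃ C : ℝ, ∀ (m : ℕ) (Y : ℕ) (B : Finset (Fin m → ℕ)),
    (∀ b ∈ B, (∀ i, 1 ≤ b i) ∧ ∏ i, b i ^ gg m i ≤ Y) → (B.card : ℝ) ≤ C * Y := by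
  refine ⟨Real.exp 64, fun m Y B hB => ?_⟩
  have hgg : ∀ i, 2 ≤ gg m i := fun i => le_max_left _ _
  have hsub : B ⊆ Fintype.piFinset fun _ : Fin m => Icc 1 Y := by
    intro b hb
    obtain ⟨h1, h2⟩ := hB b hb
    rw [Fintype.mem_piFinset]
    intro i
    rw [mem_Icc]
    refine ⟨h1 i, ?_⟩
    have h3 : b i ^ gg m i ≤ ∏ i, b i ^ gg m i := by
      refine Nat.le_of_dvd (prod_pos fun j _ => pow_pos (h1 j) _) ?_
      exact dvd_prod_of_mem (fun i : Fin m => b i ^ gg m i) (mem_univ i)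
    exact ((Nat.le_self_pow (by have := hgg i; omega) _).trans h3).trans h2
  have h1 : ∀ b ∈ B, (1 : ℝ) ≤ Y * ∏ i, 1 / (b i : ℝ) ^ gg m i := by
    intro b hb
    obtain ⟨h1, h2⟩ := hB b hb
    have h3 : (0 : ℝ) < ∏ i, (b i : ℝ) ^ gg m i := by
      refine prod_pos fun i _ => pow_pos ?_ _
      exact_mod_cast h1 i
    have h4 : ∏ i, (b i : ℝ) ^ gg m i ≤ Y := by exact_mod_cast h2
    rw [prod_div_distrib, prod_const_one, mul_one_div, le_div_iff₀ h3, one_mul]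
    exact h4
  calc (B.card : ℝ) = ∑ b ∈ B, (1 : ℝ) := by simp
    _ ≤ ∑ b ∈ B, (Y : ℝ) * ∏ i, 1 / (b i : ℝ) ^ gg m i := sum_le_sum h1
    _ ≤ ∑ b ∈ Fintype.piFinset fun _ : Fin m => Icc 1 Y, (Y : ℝ) * ∏ i, 1 / (b i : ℝ) ^ gg m i :=
        sum_le_sum_of_subset_of_nonneg hsub fun b _ _ => by positivity
    _ = Y * ∏ i : Fin m, ∑ k ∈ Icc 1 Y, 1 / (k : ℝ) ^ gg m i := by
        rw [← mul_sum, prod_univ_sum]
    _ ≤ Y * ∏ i : Fin m, (1 + 4 * (1 / 2 : ℝ) ^ gg m i) := by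
        refine mul_le_mul_of_nonneg_left ?_ (Nat.cast_nonneg Y)
        exact prod_le_prod (fun i _ => sum_nonneg fun k _ => by positivity) fun i _ => sum_pow Y _ (hgg i)
    _ ≤ Y * ∏ i : Fin m, Real.exp (4 * (1 / 2 : ℝ) ^ gg m i) := by
        refine mul_le_mul_of_nonneg_left ?_ (Nat.cast_nonneg Y)
        refine prod_le_prod (fun i _ => by positivity) fun i _ => ?_
        rw [add_comm]
        exact Real.add_one_le_exp _
    _ = Y * Real.exp (4 * ∑ i : Fin m, (1 / 2 : ℝ) ^ gg m i) := by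
        rw [← Real.exp_sum, mul_sum]
    _ ≤ Y * Real.exp 64 := by
        refine mul_le_mul_of_nonneg_left ?_ (Nat.cast_nonneg Y)
        rw [Real.exp_le_exp]
        have := sum_gg m
        linarith
    _ = Real.exp 64 * Y := mul_comm _ _

end PX
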